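import Mathlib
import Pool.Agent.H.MP_20d9b9_al.SL

namespace Pool.Agent.Results.MP_669787_al.Loc

open Pool.Agent.H.MP_20d9b9_al PowerSeries

noncomputable section

def A : Subring (ℤ → ℚ⟦X⟧) where
  carrier := {g | ∃ k : ℚ, (∀ i, constantCoeff (g i) = k) ∧ {i | g i ≠ C k}.Finite}
  zero_mem' := ⟨0, by simp, by simp⟩
  one_mem' := ⟨1, by simp, by simp⟩
  add_mem' := by
    rintro f g ⟨k, h1, h2⟩ ⟨l, h3, h4⟩
    refine ⟨k + l, fun i => by simp [h1, h3], (h2.union h4).subset fun i hi => ?_⟩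
    by_contra hc
    simp only [Set.mem_union, Set.mem_ofPred_eq, not_or, not_not] at hc
    exact hi (by simp [hc.1, hc.2])
  mul_mem' := by
    rintro f g ⟨k, h1, h2⟩ ⟨l, h3, h4⟩
    refine ⟨k * l, fun i => by simp [h1, h3], (h2.union h4).subset fun i hi => ?_⟩
    by_contra hc
    simp only [Set.mem_union, Set.mem_ofPred_eq, not_or, not_not] at hc
    exact hi (by simp [hc.1, hc.2])
  neg_mem' := by
    rintro f ⟨k, h1, h2⟩
    refine ⟨-k, fun i => by simp [h1], h2.subset fun i hi => ?_⟩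
    intro hc
    exact hi (by simp [hc])

def sh0 (n : ℤ) (g : A) : A := ⟨fun i => g.1 (i + n), by
  obtain ⟨k, h1, h2⟩ := g.2
  exact ⟨k, fun i => h1 _, h2.preimage (f := fun i => i + n) (add_left_injective n).injOn⟩⟩

def sh (n : ℤ) : RingAut A where
  toFun := sh0 n
  invFun := sh0 (-n)
  left_inv g := by ext i; simp [sh0]
  right_inv g := by ext i; simp [sh0]
  map_mul' _ _ := rfl
  map_add' _ _ := rfl

lemma sh_add (m n : ℤ) : sh (m + n) = sh m * sh n := by
  ext g i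
  change coeff _ (g.1 (i + (m + n))) = coeff _ (g.1 (i + m + n))
  rw [add_assoc]

lemma sh_zero : sh 0 = 1 := by
  ext g i
  change coeff _ (g.1 (i + 0)) = coeff _ (g.1 i)
  rw [add_zero]

lemma sh_pow (n : ℤ) : sh 1 ^ n = sh n := by
  induction n using Int.induction_on with
  | zero => rw [zpow_zero, sh_zero]
  | succ n ih => rw [zpow_add_one, ih, sh_add]
  | pred n ih =>
    rw [zpow_sub_one, ih, mul_inv_eq_iff_eq_mul, ← sh_add, sub_add_cancel]

lemma sh_val (n : ℤ) (g : A) (i : ℤ) : ((sh 1 ^ n) g).1 i = g.1 (i + n) := by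
  rw [sh_pow]; rfl

def χ : A →+* ℚ := (constantCoeff (R := ℚ)).comp ((Pi.evalRingHom _ (0 : ℤ)).comp A.subtype)

lemma χ_eq (g : A) (i : ℤ) : constantCoeff (g.1 i) = χ g := by
  obtain ⟨k, h1, _⟩ := g.2
  exact (h1 i).trans (h1 0).symm

lemma fin_supp (g : A) : {i | g.1 i ≠ C (χ g)}.Finite := by
  obtain ⟨k, h1, h2⟩ := g.2
  rwa [← χ_eq g 0, h1 0]

lemma unitA (g : A) (hg : χ g ≠ 0) : ∃ b, b * g = 1 := by
  refine ⟨⟨fun i => (g.1 i)⁻¹, (χ g)⁻¹, fun i => by rw [constantCoeff_inv, χ_eq],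
    (fin_supp g).subset fun i hi hc => hi (by beta_reduce; rw [hc, C_inv])⟩, ?_⟩
  apply Subtype.ext
  funext i
  exact PowerSeries.inv_mul_cancel _ (by rwa [χ_eq])

def sg (i : ℤ) (t : ℚ⟦X⟧) (ht : constantCoeff t = 0) : A :=
  ⟨Pi.single i t, 0, fun j => by
    by_cases h : j = i
    · subst h; simpa using ht
    · simp [Pi.single_eq_of_ne h], (Set.finite_singleton i).subset fun j hj => by
    by_contra hc
    exact hj (by simp [Pi.single_eq_of_ne hc])⟩

lemma χ_sg (i t ht) : χ (sg i t ht) = 0 := by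
  rw [← χ_eq _ i]; simpa [sg] using ht

lemma memJ {R : Type} [Ring R] {r : R} :
    r ∈ Ring.jacobson R ↔ ∀ y, ∃ z, z * (y * r + 1) = 1 := by
  rw [← Ideal.jacobson_bot, Ideal.mem_jacobson_iff]
  refine forall_congr' fun y => exists_congr fun z => ?_
  rw [Ideal.mem_bot, sub_eq_zero, mul_add, mul_one, mul_assoc]

variable {R : Type} [Ring R] {c : R →+ ℤ → A} (h : IsSL (sh 1) c)
include h

lemma J1 (a : A) (ha : χ a = 0) (h0 : ∀ n : ℤ, n ≠ 0 → a * (sh 1 ^ n) a = 0) :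
    h.mon 0 a ∈ Ring.jacobson R := by
  rw [memJ]
  intro y
  obtain ⟨w, hw⟩ := unitA (a * c y 0 + 1) (by simp [ha])
  have e1 : h.mon 0 a * y * h.mon 0 a = h.mon 0 (a * c y 0) * h.mon 0 a := by
    refine h.ext fun n => ?_
    rw [h.mul_mon, h.mon_mul, h.mon_mon, h.c_mon]
    by_cases hn : n = 0
    · subst hn; simp
    · rw [Pi.single_eq_of_ne (by omega), mul_right_comm, sub_zero, h0 n hn, zero_mul]
  have e2 : h.mon 0 w * (h.mon 0 (a * c y 0) + 1) = 1 := by
    rw [h.one_eq, ← h.mon_add, h.mon_mon, zp_zero, hw, add_zero]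
  refine ⟨1 - y * h.mon 0 w * h.mon 0 a, ?_⟩
  have : (1 - y * h.mon 0 w * h.mon 0 a) * (y * h.mon 0 a + 1) = y * h.mon 0 a + 1 -
      y * h.mon 0 w * (h.mon 0 a * y * h.mon 0 a + h.mon 0 a) := by noncomm_ring
  rw [this, e1, ← add_one_mul, mul_assoc, ← mul_assoc (h.mon 0 w), e2, one_mul,
    add_sub_cancel_left]

lemma J2 (s : Finset ℤ) : ∀ a : A, χ a = 0 → (∀ i ∉ s, a.1 i = 0) →
    h.mon 0 a ∈ Ring.jacobson R := by
  induction s using Finset.induction_on with
  | empty =>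
    intro a _ h0
    have : a = 0 := Subtype.ext (funext fun i => h0 i (by simp))
    rw [this, h.mon_zero]
    exact zero_mem _
  | insert i s _ ih =>
    intro a ha h0
    have ht : constantCoeff (a.1 i) = 0 := by rw [χ_eq, ha]
    have : a = sg i (a.1 i) ht + (a - sg i (a.1 i) ht) := by abel
    rw [this, h.mon_add]
    refine add_mem (J1 h _ (χ_sg _ _ _) fun n hn => ?_) (ih _ (by simp [ha, χ_sg]) fun j hj => ?_)
    · apply Subtype.ext
      funext j
      change (sg i (a.1 i) ht).1 j * ((sh 1 ^ n) (sg i (a.1 i) ht)).1 j = 0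
      rw [sh_val]
      by_cases hj : j = i
      · simp only [sg]
        rw [Pi.single_eq_of_ne (i := i) (i' := j + n) (by omega), mul_zero]
      · simp [sg, Pi.single_eq_of_ne hj]
    · by_cases hji : j = i
      · subst hji; simp [sg]
      · simp [sg, Pi.single_eq_of_ne hji, h0 j (by simp [hji, hj])]

lemma J3 (d : ℤ) (a : A) (ha : χ a = 0) : h.mon d a ∈ Ring.jacobson R := by
  have : h.mon d a = h.mon 0 a * h.mon d 1 := by rw [h.mon_mon]; simp
  rw [this]
  refine Ideal.mul_mem_right _ _ (J2 h (fin_supp a).toFinset a ha fun i hi => ?_)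
  simpa [ha] using hi

lemma dich (r : R) (hr : ∃ i, χ (c r i) ≠ 0) : ∃ z, z * r = 1 := by
  obtain ⟨d, d1, d2⟩ := h.ex_min r (fun a => χ a ≠ 0) (by simp) hr
  obtain ⟨b, hb⟩ := h.bdd r
  let j := ∑ i ∈ Finset.Ico b d, h.mon i (c r i)
  have hj : j ∈ Ring.jacobson R :=
    sum_mem fun i hi => J3 h i _ (not_not.1 (d2 i (Finset.mem_Ico.1 hi).2))
  have hc : ∀ n, c j n = if n ∈ Finset.Ico b d then c r n else 0 := by
    intro n
    simp only [j, map_sum, h.c_mon, Finset.sum_apply, Finset.sum_pi_single]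
  obtain ⟨z, hz⟩ := h.left_inv (r := r - j) (d := d) (fun i hi => by
    rw [map_sub, Pi.sub_apply, hc]
    split_ifs with h1
    · exact sub_self _
    · rw [hb i (by simp at h1; omega), sub_zero]) (by
    rw [map_sub, Pi.sub_apply, hc, if_neg (by simp), sub_zero]
    exact unitA _ d1)
  obtain ⟨w, hw⟩ := memJ.1 hj z
  refine ⟨w * z, ?_⟩
  rw [← hw, ← hz, mul_assoc, ← mul_add, add_sub_cancel]

lemma inJ (r : R) (hr : ∀ i, χ (c r i) = 0) : r ∈ Ring.jacobson R := by
  rw [memJ]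
  intro y
  refine dich h _ ⟨0, ?_⟩
  have : χ (c (y * r) 0) = 0 := by
    rw [h.mul]
    refine finsum_induction (fun x => χ x = 0) (map_zero _)
      (fun x y hx hy => by rw [map_add, hx, hy, add_zero]) fun i => ?_
    rw [map_mul, ← χ_eq ((sh 1 ^ i) _) 0, sh_val, χ_eq, hr, mul_zero]
  simp [this, h.c_one]

lemma semi : IsSemisimpleRing (R ⧸ Ring.jacobson R) := by
  refine { exists_isCompl := fun T => ?_ }
  by_cases hT : T = ⊥
  · exact ⟨⊤, hT ▸ isCompl_bot_top⟩
  obtain ⟨x, hx, hx0⟩ := (Submodule.ne_bot_iff T).1 hT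
  obtain ⟨r, rfl⟩ := Ideal.Quotient.mk_surjective x
  have : ∃ i, χ (c r i) ≠ 0 := by
    by_contra hc
    push Not at hc
    exact hx0 (Ideal.Quotient.eq_zero_iff_mem.2 (inJ h r hc))
  obtain ⟨z, hz⟩ := dich h r this
  have : T = ⊤ := by
    rw [Ideal.eq_top_iff_one]
    have := T.smul_mem (Ideal.Quotient.mk _ z) hx
    rwa [smul_eq_mul, ← map_mul, hz, map_one] at this
  exact ⟨⊥, this ▸ isCompl_top_bot⟩

end

theorem result : ∃ (A : Type) (_ : Ring A) (φ : RingAut A) (R : Type) (_ : Ring R)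
    (c : R →+ ℤ → A), IsSL φ c ∧ IsSemisimpleRing (R ⧸ Ring.jacobson R) ∧
      IsArtinianRing (R ⧸ Ring.jacobson R) ∧ ∃ a ∈ Ring.jacobson A, ¬ IsNilpotent a := by
  have := semi (isSL (sh 1))
  refine ⟨A, inferInstance, sh 1, SL (sh 1), inferInstance, cSL _, isSL _, this, inferInstance,
    sg 0 X (by simp), ?_, ?_⟩
  · rw [memJ]
    intro y
    exact unitA _ (by simp [χ_sg])
  · rintro ⟨n, hn⟩
    have := congrArg (fun g : A => g.1 0) hn
    simp [sg] at this

end Pool.Agent.Results.MP_669787_al.Loc
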